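import Pool.Agent.Helper29.CN.Al
import Pool.Agent.Helper53.LE.Df

/-!
PROJECT ALLQ: `C_main_E` of `Helper53/LE/Tg.lean`.
-/

set_option autoImplicit false

namespace Pool.Agent.Helper29.LE

open Pool.Agent.Helper53.LE

theorem C_main_E {σ : Type} [Fintype σ] (n : ℕ) (ρ : σ → ℂ) (h0 : ∀ i, ρ i ≠ 0)
    (htr : ∀ f : Fin (n + 1) → σ, ¬ AlgebraicIndependent ℚ (fun i => ρ (f i)))
    (α : ℂ) (hα : IsIntegral ℤ α) (hα0 : α ≠ 0)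
    (κ : ℝ) (hκ : (n : ℝ) + 1 < κ) :
    ∃ S0 : ℝ, ∀ S : ℝ, S0 ≤ S → ∀ (N : ℕ) (P : Fin N → MvPolynomial (Option σ) ℤ),
      (N : ℝ) ≤ Real.exp S → (∀ i, ((P i).totalDegree : ℝ) ≤ S) →
      (∀ i m, |(((P i).coeff m : ℤ) : ℝ)| ≤ Real.exp S) →
      (∀ i, ‖MvPolynomial.aeval (pα α ρ) (P i)‖ ≤ Real.exp (-S ^ κ)) →
      ∃ x : σ → ℂ, (∀ i, x i ≠ 0) ∧ ∀ i, MvPolynomial.aeval (pα α x) (P i) = 0 :=
  Pool.Agent.Helper29.CN.C_main_al n ρ h0 α hα0 (hα.tower_top (A := ℚ)).isAlgebraic htr κ hκ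

end Pool.Agent.Helper29.LE
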